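import Pool.Agent.helper40.SU.SpecC

set_option autoImplicit false

open Finset

namespace Pool.Agent.SU

theorem FST_floor (b : ℝ) (hb : 0 ≤ b) (v M : ℕ) (hM : 0 < M) :
    ⌊(((⌊b⌋₊ : ℕ) : ℚ) - v) / (M : ℚ)⌋ = ⌊(b - v) / (M : ℝ)⌋ := by
  rw [Int.floor_eq_iff]
  have hMr : (0 : ℝ) < M := by exact_mod_cast hM
  have hMq : (0 : ℚ) < M := by exact_mod_cast hM
  have h1 := Int.floor_le ((b - v) / (M : ℝ))
  have h2 := Int.lt_floor_add_one ((b - v) / (M : ℝ))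
  generalize ⌊(b - v) / (M : ℝ)⌋ = k at h1 h2 ⊢
  rw [le_div_iff₀ hMr] at h1
  rw [div_lt_iff₀ hMr] at h2
  have h3 : ((⌊b⌋₊ : ℕ) : ℝ) ≤ b := Nat.floor_le hb
  have h4 : b < ((⌊b⌋₊ : ℕ) : ℝ) + 1 := Nat.lt_floor_add_one b
  constructor
  · rw [le_div_iff₀ hMq]
    have h5 : ((k * M + v : ℤ) : ℝ) < (((⌊b⌋₊ : ℕ) : ℤ) : ℝ) + 1 := by
      push_cast
      linarith
    have h6 : k * M + v ≤ ((⌊b⌋₊ : ℕ) : ℤ) := by
      have : (k * M + v : ℤ) < ((⌊b⌋₊ : ℕ) : ℤ) + 1 := by exact_mod_cast h5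
      omega
    have h7 : ((k * M + v : ℤ) : ℚ) ≤ (((⌊b⌋₊ : ℕ) : ℤ) : ℚ) := by exact_mod_cast h6
    push_cast at h7
    linarith
  · rw [div_lt_iff₀ hMq]
    have h5 : (((⌊b⌋₊ : ℕ) : ℤ) : ℝ) < (((k + 1) * M + v : ℤ) : ℝ) := by
      push_cast
      linarith
    have h6 : ((⌊b⌋₊ : ℕ) : ℤ) < (k + 1) * M + v := by exact_mod_cast h5
    have h7 : (((⌊b⌋₊ : ℕ) : ℤ) : ℚ) < (((k + 1) * M + v : ℤ) : ℚ) := by exact_mod_cast h6
    push_cast at h7
    linarith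

theorem FST_gen (F : Finset ℕ) (M c : ℕ) (a b : ℝ) (hM : 1 ≤ M) (ha : 0 ≤ a) (hab : a ≤ b)
    (hF : ∀ n : ℕ, n ∈ F ↔ n ≡ c [MOD M] ∧ a < n ∧ (n : ℝ) ≤ b) :
    |(F.card : ℝ) - (b - a) / M| ≤ 1 := by
  have hb : 0 ≤ b := ha.trans hab
  have hMr : (0 : ℝ) < M := by exact_mod_cast hM
  have hFe : F = (Ioc ⌊a⌋₊ ⌊b⌋₊).filter (fun x => x ≡ c [MOD M]) := by
    ext n
    rw [hF n, Finset.mem_filter, Finset.mem_Ioc]
    constructor
    · rintro ⟨h1, h2, h3⟩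
      exact ⟨⟨(Nat.floor_lt ha).2 h2, Nat.le_floor h3⟩, h1⟩
    · rintro ⟨⟨h2, h3⟩, h1⟩
      exact ⟨h1, (Nat.floor_lt ha).1 h2, (Nat.le_floor_iff hb).1 h3⟩
  have hcard := Nat.Ioc_filter_modEq_card ⌊a⌋₊ ⌊b⌋₊ (r := M) (by omega) c
  rw [← hFe, FST_floor a ha c M (by omega), FST_floor b hb c M (by omega)] at hcard
  have hmono : ⌊(a - c) / (M : ℝ)⌋ ≤ ⌊(b - c) / (M : ℝ)⌋ := by
    apply Int.floor_le_floor
    gcongr
  rw [max_eq_left (by omega)] at hcard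
  have hcr : (F.card : ℝ) = (⌊(b - c) / (M : ℝ)⌋ : ℝ) - (⌊(a - c) / (M : ℝ)⌋ : ℝ) := by
    exact_mod_cast hcard
  have h1 := Int.floor_le ((b - c) / (M : ℝ))
  have h2 := Int.lt_floor_add_one ((b - c) / (M : ℝ))
  have h3 := Int.floor_le ((a - c) / (M : ℝ))
  have h4 := Int.lt_floor_add_one ((a - c) / (M : ℝ))
  have e : (b - a) / (M : ℝ) = (b - c) / M - (a - c) / M := by ring
  rw [hcr, e, abs_le]
  constructor <;> linarith

theorem FST : FST_stmt := by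
  intro q s₀ w₀ D T δ hq hD hT hδ hδ1
  have hqr : (1 : ℝ) ≤ q := by exact_mod_cast hq
  have hDr : (1 : ℝ) ≤ D := by exact_mod_cast hD
  have hs1 : 1 ≤ √(D : ℝ) := Real.one_le_sqrt.2 hDr
  have hs0 : 0 < √(D : ℝ) := by linarith
  constructor
  · have h1 := FST_gen (sW q s₀ T δ D) (32 * q) s₀ (T / √(D : ℝ)) ((1 + δ ^ 2) * T / √(D : ℝ))
      (by omega) (by positivity) (by
        gcongr
        nlinarith [mul_nonneg (sq_nonneg δ) hT])
      (by
        intro n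
        unfold sW
        rw [Finset.mem_filter, Finset.mem_range, div_lt_iff₀ hs0, le_div_iff₀ hs0]
        constructor
        · rintro ⟨-, h2, h3, h4⟩
          exact ⟨h2, by linarith, by linarith⟩
        · rintro ⟨h2, h3, h4⟩
          refine ⟨?_, h2, by linarith, by linarith⟩
          rw [Nat.lt_succ_iff]
          apply Nat.le_floor
          have h5 : (n : ℝ) ≤ n * √(D : ℝ) := le_mul_of_one_le_right (by positivity) hs1
          have h6 : (1 + δ ^ 2) * T ≤ 2 * T := by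
            have : δ ^ 2 ≤ 1 := by nlinarith
            nlinarith
          linarith)
    have e : ((1 + δ ^ 2) * T / √(D : ℝ) - T / √(D : ℝ)) / ((32 * q : ℕ) : ℝ) =
        δ ^ 2 * T / (32 * q * √(D : ℝ)) := by
      push_cast
      field_simp
      ring
    rwa [e] at h1
  · have h1 := FST_gen (wW q w₀ T δ) (4 * q) w₀ T ((1 + δ) * T)
      (by omega) hT (by nlinarith [mul_nonneg hδ.le hT])
      (by
        intro n
        unfold wW
        rw [Finset.mem_filter, Finset.mem_range]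
        constructor
        · rintro ⟨-, h2, h3, h4⟩
          exact ⟨h2, h3, h4⟩
        · rintro ⟨h2, h3, h4⟩
          refine ⟨?_, h2, h3, h4⟩
          rw [Nat.lt_succ_iff]
          apply Nat.le_floor
          nlinarith)
    have e : ((1 + δ) * T - T) / ((4 * q : ℕ) : ℝ) = δ * T / (4 * q) := by
      push_cast
      ring
    rwa [e] at h1

end Pool.Agent.SU
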