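import Pool.Agent.helper40.SU.SpecA

set_option autoImplicit false

open Finset

namespace Pool.Agent.SU

theorem LOC_cop (S : Finset ℕ) (hS : ∀ p ∈ S, p.Prime ∧ p ≠ 2) (j a : ℕ) (ha : a.Prime)
    (ha2 : a ≠ 2) (haS : a ∉ S) : (2 ^ j * ∏ p ∈ S, p).Coprime a := by
  refine Nat.Coprime.mul_left ?_ ?_
  · exact Nat.Coprime.pow_left j ((Nat.coprime_primes Nat.prime_two ha).2 (Ne.symm ha2))
  · refine Nat.Coprime.prod_left fun p hp => ?_
    exact (Nat.coprime_primes (hS p hp).1 ha).2 (fun h => haS (h ▸ hp))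

theorem LOC_crt (j r : ℕ) (f : ℕ → ℕ) (S : Finset ℕ) : (∀ p ∈ S, p.Prime ∧ p ≠ 2) →
    ∃ x, x ≡ r [MOD 2 ^ j] ∧ ∀ p ∈ S, x ≡ f p [MOD p] := by
  induction S using Finset.induction_on with
  | empty =>
    intro _
    exact ⟨r, Nat.ModEq.refl _, fun p hp => absurd hp (Finset.notMem_empty p)⟩
  | insert a S ha ih =>
    intro hS
    have hS' : ∀ p ∈ S, p.Prime ∧ p ≠ 2 := fun p hp => hS p (Finset.mem_insert_of_mem hp)
    obtain ⟨x0, h1, h2⟩ := ih hS'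
    have haP := hS a (Finset.mem_insert_self a S)
    have hc := LOC_cop S hS' j a haP.1 haP.2 ha
    obtain ⟨x, hx1, hx2⟩ := Nat.chineseRemainder hc x0 (f a)
    refine ⟨x, ?_, ?_⟩
    · exact (hx1.of_dvd (Dvd.intro _ rfl)).trans h1
    · intro p hp
      rcases Finset.mem_insert.1 hp with h | h
      · rw [h]; exact hx2
      · exact (hx1.of_dvd ((Finset.dvd_prod_of_mem _ h).mul_left _)).trans (h2 p h)

theorem LOC_glue (j x y : ℕ) (S : Finset ℕ) : (∀ p ∈ S, p.Prime ∧ p ≠ 2) →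
    x ≡ y [MOD 2 ^ j] → (∀ p ∈ S, x ≡ y [MOD p]) → x ≡ y [MOD 2 ^ j * ∏ p ∈ S, p] := by
  induction S using Finset.induction_on with
  | empty =>
    intro _ h _
    rw [Finset.prod_empty, mul_one]
    exact h
  | insert a S ha ih =>
    intro hS h1 h2
    have hS' : ∀ p ∈ S, p.Prime ∧ p ≠ 2 := fun p hp => hS p (Finset.mem_insert_of_mem hp)
    have haP := hS a (Finset.mem_insert_self a S)
    have hc := LOC_cop S hS' j a haP.1 haP.2 ha
    have h3 := ih hS' h1 (fun p hp => h2 p (Finset.mem_insert_of_mem hp))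
    have h4 := (Nat.modEq_and_modEq_iff_modEq_mul hc).1
      ⟨h3, h2 a (Finset.mem_insert_self a S)⟩
    rw [Finset.prod_insert ha]
    have e : 2 ^ j * (a * ∏ p ∈ S, p) = 2 ^ j * (∏ p ∈ S, p) * a := by ring
    rw [e]
    exact h4

theorem LOC_Df {p m u k u' k' : ℕ} (hu : u ≡ u' [MOD p]) (hk : k ≡ k' [MOD p]) :
    Df m u k ≡ Df m u' k' [MOD p] := by
  unfold Df
  exact ((Nat.ModEq.refl _).mul (hu.pow 4)).add
    ((hk.mul (((Nat.ModEq.refl _).mul hu).add ((Nat.ModEq.refl _).mul hk))).pow 2)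

theorem LOC_sq {x : ℕ} (h : Odd x) : x ^ 2 % 8 = 1 := by
  have h1 : x % 2 = 1 := Nat.odd_iff.1 h
  have h2 : x % 8 = 1 ∨ x % 8 = 3 ∨ x % 8 = 5 ∨ x % 8 = 7 := by omega
  rcases h2 with h2 | h2 | h2 | h2 <;> rw [Nat.pow_mod, h2]

theorem LOC_D8 {m u k : ℕ} (hm : Odd m) (hu : Odd u) (hk : Odd k) : Df m u k % 8 = 3 := by
  unfold Df
  have h1 := LOC_sq hm
  have h2 : u ^ 4 % 8 = 1 := by
    have e : u ^ 4 = (u ^ 2) ^ 2 := by ring
    rw [e]
    exact LOC_sq (hu.pow)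
  have h3 : Odd (k * (m ^ 2 * u + 420 * k)) := by
    refine hk.mul ?_
    refine Odd.add_even (hm.pow.mul hu) ?_
    exact ⟨210 * k, by ring⟩
  have h4 := LOC_sq h3
  rw [Nat.add_mod, Nat.mul_mod, Nat.add_mod (m ^ 2) 1, h1, h2, h4]

theorem LOC (hLO2 : LO2_stmt) (hLOP : LOP_stmt) (hLOQ : LOQ_stmt) : LOC_stmt := by
  classical
  intro Z r hZ hr
  -- the primes up to `Z`
  set S0 : Finset ℕ := (Icc 3 Z).filter Nat.Prime with hS0
  have hS0p : ∀ p ∈ S0, p.Prime ∧ p ≠ 2 := by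
    intro p hp
    rw [hS0, Finset.mem_filter, Finset.mem_Icc] at hp
    exact ⟨hp.2, by omega⟩
  have hex1 : ∀ p, ∃ m, p.Prime → p ≠ 2 → (¬ p ∣ m ^ 2 + 1 ∧
      ∃ s w : ℕ, ¬ p ∣ w ∧ (m ^ 2 + 1) * s ^ 2 + 4 * w ^ 2 ≡ r [MOD p]) := by
    intro p
    by_cases h : p.Prime ∧ p ≠ 2
    · obtain ⟨m, hm⟩ := hLOP p h.1 h.2 r
      exact ⟨m, fun _ _ => hm⟩
    · exact ⟨0, fun h1 h2 => absurd ⟨h1, h2⟩ h⟩
  choose mf hmf using hex1
  obtain ⟨m, hm2, hmS⟩ := LOC_crt 1 1 mf S0 hS0p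
  have hmodd : Odd m := by
    rw [Nat.odd_iff]
    exact hm2
  have hm1 : ∀ p ∈ S0, m ^ 2 + 1 ≡ mf p ^ 2 + 1 [MOD p] := fun p hp =>
    ((hmS p hp).pow 2).add_right 1
  -- the modulus
  set S : Finset ℕ := S0 ∪ (((m ^ 2 + 1) * cf m).primeFactors).filter (fun p => p ≠ 2) with hS
  have hSp : ∀ p ∈ S, p.Prime ∧ p ≠ 2 := by
    intro p hp
    rw [hS, Finset.mem_union] at hp
    rcases hp with h | h
    · exact hS0p p h
    · rw [Finset.mem_filter] at h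
      exact ⟨Nat.prime_of_mem_primeFactors h.1, h.2⟩
  have hsub : S0 ⊆ S := Finset.subset_union_left
  have hcf : (m ^ 2 + 1) * cf m ≠ 0 := by
    unfold cf
    positivity
  set q : ℕ := ∏ p ∈ S, p with hq
  have hdvd : ∀ p ∈ S, p ∣ q := fun p hp => Finset.dvd_prod_of_mem _ hp
  have hqodd : Odd q := by
    have : Nat.Coprime q 2 := by
      rw [hq]
      refine Nat.Coprime.prod_left fun p hp => ?_
      exact (Nat.coprime_primes (hSp p hp).1 Nat.prime_two).2 (hSp p hp).2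
    exact Nat.coprime_two_right.1 this
  have hqpos : 0 < q := hqodd.pos
  have hq0 : q0 Z ∣ q := Finset.prod_dvd_prod_of_subset _ _ _ hsub
  -- the local data
  have hloc : ∀ p, ∃ u k : ℕ, p ∈ S → (¬ p ∣ Df m u k ∧ ∀ n : ℕ, n ≡ r [MOD 8 * q0 Z] →
      ∃ s w : ℕ, ¬ p ∣ w ∧ Df m u k * s ^ 2 + 4 * w ^ 2 ≡ n [MOD p]) := by
    intro p
    by_cases h0 : p ∈ S0
    · refine ⟨1, 0, fun _ => ?_⟩
      have hD : Df m 1 0 = m ^ 2 + 1 := by
        unfold Df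
        ring
      obtain ⟨a1, s, w, a2, a3⟩ := hmf p (hS0p p h0).1 (hS0p p h0).2
      rw [hD]
      refine ⟨?_, ?_⟩
      · intro h
        exact a1 (((hm1 p h0).dvd_iff (dvd_refl p)).1 h)
      · intro n hn
        refine ⟨s, w, a2, ?_⟩
        have h5 : n ≡ r [MOD p] :=
          hn.of_dvd ((Finset.dvd_prod_of_mem _ h0).mul_left 8)
        exact ((((hm1 p h0).mul_right _).add_right _).trans a3).trans h5.symm
    · by_cases h1 : p ∈ S
      · have h2 := h1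
        rw [hS, Finset.mem_union] at h2
        have h3 := h2.resolve_left h0
        rw [Finset.mem_filter] at h3
        have hpp := Nat.prime_of_mem_primeFactors h3.1
        have hpZ : 7 < p := by
          by_contra hcon
          apply h0
          rw [hS0, Finset.mem_filter, Finset.mem_Icc]
          have := hpp.two_le
          exact ⟨⟨by omega, by omega⟩, hpp⟩
        obtain ⟨u, k, b1, b2⟩ := hLOQ p m hpp hpZ (Nat.dvd_of_mem_primeFactors h3.1)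
        exact ⟨u, k, fun _ => ⟨b1, fun n _ => b2 n⟩⟩
      · exact ⟨0, 0, fun h => absurd h h1⟩
  choose uf kf hloc using hloc
  obtain ⟨u1, hu2, huS⟩ := LOC_crt 1 1 uf S hSp
  obtain ⟨k1, hk2, hkS⟩ := LOC_crt 1 1 kf S hSp
  have h64 : 0 < 64 * q := by positivity
  have hu0 : u1 % (64 * q) ≡ u1 [MOD 64 * q] := Nat.mod_modEq _ _
  have hk0 : k1 % (64 * q) ≡ k1 [MOD 64 * q] := Nat.mod_modEq _ _
  set u₀ := u1 % (64 * q) with hu₀
  set k₀ := k1 % (64 * q) with hk₀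
  have h2d : (2 : ℕ) ∣ 64 * q := ⟨32 * q, by ring⟩
  have huodd : Odd u₀ := by
    rw [Nat.odd_iff]
    exact (hu0.of_dvd h2d).trans hu2
  have hkodd : Odd k₀ := by
    rw [Nat.odd_iff]
    exact (hk0.of_dvd h2d).trans hk2
  have hDp : ∀ p ∈ S, Df m u₀ k₀ ≡ Df m (uf p) (kf p) [MOD p] := by
    intro p hp
    have hpd : p ∣ 64 * q := (hdvd p hp).mul_left 64
    exact LOC_Df ((hu0.of_dvd hpd).trans (huS p hp)) ((hk0.of_dvd hpd).trans (hkS p hp))
  refine ⟨m, q, u₀, k₀, ⟨hmodd, hqodd, huodd, hkodd, (Nat.mod_lt _ h64).le, (Nat.mod_lt _ h64).le,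
    ?_, ?_, ?_⟩, hq0, ?_⟩
  · intro p hp hpZ
    by_cases h2 : p = 2
    · rw [h2]; exact Dvd.intro _ rfl
    · refine (hdvd p (hsub ?_)).mul_left 2
      rw [hS0, Finset.mem_filter, Finset.mem_Icc]
      have := hp.two_le
      exact ⟨⟨by omega, hpZ⟩, hp⟩
  · intro p hp hpd
    by_cases h2 : p = 2
    · rw [h2]; exact Dvd.intro _ rfl
    · refine (hdvd p ?_).mul_left 2
      rw [hS, Finset.mem_union]
      right
      rw [Finset.mem_filter]
      exact ⟨Nat.mem_primeFactors.2 ⟨hp, hpd, hcf⟩, h2⟩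
  · rw [hq]
    refine Nat.Coprime.prod_right fun p hp => ?_
    rw [Nat.coprime_comm, Nat.Prime.coprime_iff_not_dvd (hSp p hp).1]
    intro h
    exact (hloc p hp).1 (((hDp p hp).dvd_iff (dvd_refl p)).1 h)
  · intro n hn
    have hn8 : n % 8 = 7 := by
      have h1 : n ≡ r [MOD 8] := hn.of_dvd (Dvd.intro _ rfl)
      have h2 : n % 8 = r % 8 := h1
      omega
    obtain ⟨s', hs'odd, hs'⟩ := hLO2 (Df m u₀ k₀) n (LOC_D8 hmodd huodd hkodd) hn8
    have hsw : ∀ p, ∃ s w : ℕ, p ∈ S → (¬ p ∣ w ∧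
        Df m (uf p) (kf p) * s ^ 2 + 4 * w ^ 2 ≡ n [MOD p]) := by
      intro p
      by_cases h : p ∈ S
      · obtain ⟨s, w, h1⟩ := (hloc p h).2 n hn
        exact ⟨s, w, fun _ => h1⟩
      · exact ⟨0, 0, fun h1 => absurd h1 h⟩
    choose sf wf hsw using hsw
    obtain ⟨s₀, hs32, hsS⟩ := LOC_crt 5 s' sf S hSp
    obtain ⟨w₀, hw2, hwS⟩ := LOC_crt 1 1 wf S hSp
    have hwodd : Odd w₀ := by
      rw [Nat.odd_iff]
      exact hw2
    refine ⟨s₀, w₀, ?_, ?_⟩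
    · refine Nat.Coprime.mul_right ?_ ?_
      · exact Nat.coprime_two_right.2 hwodd
      · rw [hq]
        refine Nat.Coprime.prod_right fun p hp => ?_
        rw [Nat.coprime_comm, Nat.Prime.coprime_iff_not_dvd (hSp p hp).1]
        intro h
        exact (hsw p hp).1 (((hwS p hp).dvd_iff (dvd_refl p)).1 h)
    · have e : 32 * q = 2 ^ 5 * ∏ p ∈ S, p := by
        rw [hq]
        norm_num
      rw [e]
      refine LOC_glue 5 _ _ S hSp ?_ ?_
      · have h1 : Df m u₀ k₀ * s₀ ^ 2 ≡ Df m u₀ k₀ * s' ^ 2 [MOD 2 ^ 5] :=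
          (Nat.ModEq.refl _).mul (hs32.pow 2)
        have h2 : 4 * w₀ ^ 2 ≡ 4 [MOD 2 ^ 5] := by
          have h3 := LOC_sq hwodd
          have h4 : (4 * w₀ ^ 2) % 32 = 4 % 32 := by omega
          exact h4
        have h5 : Df m u₀ k₀ * s' ^ 2 + 4 ≡ n [MOD 2 ^ 5] := hs'
        exact (h1.add h2).trans h5
      · intro p hp
        exact (((hDp p hp).mul ((hsS p hp).pow 2)).add
          ((Nat.ModEq.refl 4).mul ((hwS p hp).pow 2))).trans (hsw p hp).2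

end Pool.Agent.SU
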