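import Pool.Agent.helper40.SU.SpecA

set_option autoImplicit false

open Finset

namespace Pool.Agent.SU

theorem LOP_two {p : ℕ} [Fact p.Prime] (hp : p ≠ 2) : (2 : ZMod p) ≠ 0 := by
  intro h
  have h1 : ((2 : ℕ) : ZMod p) = 0 := by exact_mod_cast h
  rw [ZMod.natCast_eq_zero_iff] at h1
  exact hp ((Nat.prime_dvd_prime_iff_eq Fact.out Nat.prime_two).1 h1)

theorem LOP_sum {p : ℕ} [Fact p.Prime] (x : ZMod p) (hx : x ≠ 0) :
    ∃ a b : ZMod p, a ^ 2 + b ^ 2 = x ∧ b ≠ 0 := by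
  obtain ⟨a, b, h⟩ := ZMod.sq_add_sq p x
  by_cases hb : b = 0
  · refine ⟨b, a, by rw [← h]; ring, ?_⟩
    rintro rfl
    apply hx
    rw [← h, hb]
    ring
  · exact ⟨a, b, h, hb⟩

theorem LOP : LOP_stmt := by
  intro p hp hp2 n
  have : Fact p.Prime := ⟨hp⟩
  have h2 := LOP_two (p := p) hp2
  have half : ∀ b : ZMod p, 4 * (b / 2) ^ 2 = b ^ 2 := by
    intro b
    field_simp
    ring
  by_cases hn : (n : ZMod p) = 0
  · obtain ⟨a, b, h, hb⟩ := LOP_sum (p := p) (-1) (neg_ne_zero.2 one_ne_zero)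
    refine ⟨a.val, ?_, 1, (b / 2).val, ?_, ?_⟩
    · rw [← ZMod.natCast_eq_zero_iff]
      push_cast
      rw [ZMod.natCast_zmod_val]
      intro h3
      have h4 : b ^ 2 = 0 := by linear_combination h - h3
      exact hb (pow_eq_zero_iff two_ne_zero |>.1 h4)
    · rw [← ZMod.natCast_eq_zero_iff, ZMod.natCast_zmod_val]
      exact div_ne_zero hb h2
    · rw [← ZMod.natCast_eq_natCast_iff]
      push_cast
      rw [ZMod.natCast_zmod_val, ZMod.natCast_zmod_val, half, hn]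
      linear_combination h
  · obtain ⟨a, b, h, hb⟩ := LOP_sum (p := p) (n : ZMod p) hn
    refine ⟨0, ?_, a.val, (b / 2).val, ?_, ?_⟩
    · have : 0 ^ 2 + 1 = 1 := by norm_num
      rw [this]
      exact hp.one_lt.not_ge ∘ (Nat.le_of_dvd one_pos)
    · rw [← ZMod.natCast_eq_zero_iff, ZMod.natCast_zmod_val]
      exact div_ne_zero hb h2
    · rw [← ZMod.natCast_eq_natCast_iff]
      push_cast
      rw [ZMod.natCast_zmod_val, ZMod.natCast_zmod_val, half]
      linear_combination h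

end Pool.Agent.SU
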