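import Pool.Agent.helper40.SU.SpecC

set_option autoImplicit false

open Finset

namespace Pool.Agent.SU

noncomputable def SEM_X (q J G : ℕ) (η : ℝ) (D D' : ℕ) : ℝ :=
  ∑ j ∈ cop q J, wj j * ((cD D * gw D j) * (cD D' * gw D' j)) *
    (∑ g ∈ cop q G, 1 / (g : ℝ) * (jacobiSym ((D * D' : ℕ) : ℤ) g : ℝ) + η)

theorem SEM_wj (j : ℕ) : 0 ≤ wj j := by
  unfold wj
  positivity

theorem SEM_cD (D : ℕ) : 0 ≤ cD D := by
  unfold cD
  positivity

theorem SEM_gw (D j : ℕ) : 0 ≤ gw D j := by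
  unfold gw
  positivity

theorem SEM_J (D D' g : ℕ) : ((jacobiSym ((D * D' : ℕ) : ℤ) g : ℤ) : ℝ) =
    (jacobiSym (D : ℤ) g : ℝ) * (jacobiSym (D' : ℤ) g : ℝ) := by
  rw [Nat.cast_mul, jacobiSym.mul_left]
  push_cast
  rfl

theorem SEM_B (S : Finset ℕ) (j g : ℕ) : Bj S j g ^ 2 = ∑ D ∈ S, ∑ D' ∈ S,
    ((cD D * gw D j) * (cD D' * gw D' j)) * (jacobiSym ((D * D' : ℕ) : ℤ) g : ℝ) := by
  unfold Bj
  rw [sq, Finset.sum_mul_sum]
  refine Finset.sum_congr rfl fun D _ => Finset.sum_congr rfl fun D' _ => ?_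
  rw [SEM_J]
  ring

theorem SEM_B1 (S : Finset ℕ) (j : ℕ) : Bj S j 1 ^ 2 = ∑ D ∈ S, ∑ D' ∈ S,
    ((cD D * gw D j) * (cD D' * gw D' j)) := by
  rw [SEM_B]
  refine Finset.sum_congr rfl fun D _ => Finset.sum_congr rfl fun D' _ => ?_
  rw [jacobiSym.one_right]
  push_cast
  ring

theorem SEM_sum (S : Finset ℕ) (q J G : ℕ) (η : ℝ) :
    ∑ D ∈ S, ∑ D' ∈ S, SEM_X q J G η D D' =
      QF q J G S + η * ∑ j ∈ cop q J, wj j * Bj S j 1 ^ 2 := by
  unfold SEM_X QF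
  rw [Finset.mul_sum, ← Finset.sum_add_distrib]
  have h1 : ∀ f : ℕ → ℕ → ℕ → ℝ, ∑ D ∈ S, ∑ D' ∈ S, ∑ j ∈ cop q J, f D D' j =
      ∑ j ∈ cop q J, ∑ D ∈ S, ∑ D' ∈ S, f D D' j := by
    intro f
    calc ∑ D ∈ S, ∑ D' ∈ S, ∑ j ∈ cop q J, f D D' j
        = ∑ D ∈ S, ∑ j ∈ cop q J, ∑ D' ∈ S, f D D' j :=
          Finset.sum_congr rfl fun D _ => Finset.sum_comm
      _ = _ := Finset.sum_comm
  rw [h1]
  refine Finset.sum_congr rfl fun j _ => ?_
  have e4 : ∑ g ∈ cop q G, 1 / (g : ℝ) * Bj S j g ^ 2 = ∑ D ∈ S, ∑ D' ∈ S,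
      ((cD D * gw D j) * (cD D' * gw D' j)) *
        ∑ g ∈ cop q G, 1 / (g : ℝ) * (jacobiSym ((D * D' : ℕ) : ℤ) g : ℝ) := by
    calc ∑ g ∈ cop q G, 1 / (g : ℝ) * Bj S j g ^ 2
        = ∑ g ∈ cop q G, ∑ D ∈ S, ∑ D' ∈ S, ((cD D * gw D j) * (cD D' * gw D' j)) *
          (1 / (g : ℝ) * (jacobiSym ((D * D' : ℕ) : ℤ) g : ℝ)) := by
          refine Finset.sum_congr rfl fun g _ => ?_
          rw [SEM_B, Finset.mul_sum]
          refine Finset.sum_congr rfl fun D _ => ?_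
          rw [Finset.mul_sum]
          refine Finset.sum_congr rfl fun D' _ => ?_
          ring
      _ = ∑ D ∈ S, ∑ g ∈ cop q G, ∑ D' ∈ S, ((cD D * gw D j) * (cD D' * gw D' j)) *
          (1 / (g : ℝ) * (jacobiSym ((D * D' : ℕ) : ℤ) g : ℝ)) := Finset.sum_comm
      _ = ∑ D ∈ S, ∑ D' ∈ S, ∑ g ∈ cop q G, ((cD D * gw D j) * (cD D' * gw D' j)) *
          (1 / (g : ℝ) * (jacobiSym ((D * D' : ℕ) : ℤ) g : ℝ)) :=
          Finset.sum_congr rfl fun D _ => Finset.sum_comm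
      _ = _ := by
          refine Finset.sum_congr rfl fun D _ => Finset.sum_congr rfl fun D' _ => ?_
          rw [Finset.mul_sum]
  rw [e4, SEM_B1, Finset.mul_sum, Finset.mul_sum, Finset.mul_sum, ← Finset.sum_add_distrib]
  refine Finset.sum_congr rfl fun D _ => ?_
  rw [Finset.mul_sum, Finset.mul_sum, Finset.mul_sum, ← Finset.sum_add_distrib]
  refine Finset.sum_congr rfl fun D' _ => ?_
  ring

theorem SEM_one (S : Finset ℕ) (q J G : ℕ) (hG : 1 ≤ G) :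
    ∑ j ∈ cop q J, wj j * Bj S j 1 ^ 2 ≤ QF q J G S := by
  unfold QF
  refine Finset.sum_le_sum fun j _ => ?_
  refine mul_le_mul_of_nonneg_left ?_ (SEM_wj j)
  have h1 : 1 ∈ cop q G := by
    unfold cop
    rw [Finset.mem_filter, Finset.mem_Icc]
    exact ⟨⟨le_rfl, hG⟩, Nat.coprime_one_left _⟩
  have h2 := Finset.single_le_sum (f := fun g : ℕ => 1 / (g : ℝ) * Bj S j g ^ 2)
    (fun g _ => by positivity) h1
  simpa using h2

theorem SEM_X_nonneg (q J G D : ℕ) (η : ℝ) (hη : 0 ≤ η) : 0 ≤ SEM_X q J G η D D := by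
  unfold SEM_X
  refine Finset.sum_nonneg fun j _ => ?_
  refine mul_nonneg (mul_nonneg (SEM_wj j) (mul_self_nonneg _)) ?_
  refine add_nonneg (Finset.sum_nonneg fun g _ => ?_) hη
  rw [SEM_J]
  exact mul_nonneg (by positivity) (mul_self_nonneg _)

/-- the numerical end -/
theorem SEM_fin (I F E B C V η : ℝ) (hη : 0 < η) (hη1 : η ≤ 1) (hC : 0 < C) (hB : 0 < B)
    (hV : 0 ≤ V) (hI : 0 ≤ I) (hFE : F ^ 2 ≤ I * E) (hF : (1 - η) ^ 2 * (V * (C * B ^ 2)) ≤ F ^ 2)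
    (hE : E ≤ (1 + 5 * η + η ^ 2) * (C * B ^ 2)) : (1 - 10 * η) * V ≤ I := by
  have hCB : 0 < C * B ^ 2 := by positivity
  generalize C * B ^ 2 = K at hF hE hCB
  have h1 : (1 - 10 * η) * (1 + 5 * η + η ^ 2) ≤ (1 - η) ^ 2 := by
    have : 0 ≤ η ^ 2 := by positivity
    have : 0 ≤ η ^ 3 := by positivity
    nlinarith
  have h2 : I * E ≤ I * ((1 + 5 * η + η ^ 2) * K) := mul_le_mul_of_nonneg_left hE hI
  have hpos : 0 < (1 + 5 * η + η ^ 2) * K := by positivity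
  have h3 : ((1 - 10 * η) * V) * ((1 + 5 * η + η ^ 2) * K) ≤ I * ((1 + 5 * η + η ^ 2) * K) := by
    have h4 := mul_le_mul_of_nonneg_right h1 (mul_nonneg hV hCB.le)
    calc ((1 - 10 * η) * V) * ((1 + 5 * η + η ^ 2) * K)
        = (1 - 10 * η) * (1 + 5 * η + η ^ 2) * (V * K) := by ring
      _ ≤ (1 - η) ^ 2 * (V * K) := h4
      _ ≤ F ^ 2 := hF
      _ ≤ I * E := hFE
      _ ≤ _ := h2
  exact le_of_mul_le_mul_right h3 hpos

theorem SEM_ev (c y : ℝ) (hc : 0 < c) (hy : 0 < y) : ∀ᶠ T : ℝ in Filter.atTop, T ^ (-y) ≤ c :=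
  (tendsto_rpow_neg_atTop hy).eventually_le_const hc

theorem SEM (hFST : FST_stmt) (hTRI : TRI_stmt) (hCSW : CSW_stmt) (hPPB : PPB_stmt)
    (hDGN : DGN_stmt) (hSCL : SCL_stmt) : SEM_stmt := by
  intro c₀ C₀ δ η hc hC hδ hδ1 hη hη1
  obtain ⟨Z₁, hPPB⟩ := hPPB
  obtain ⟨Z₂, hDGN⟩ := hDGN
  obtain ⟨Z₃, hSCL⟩ := hSCL c₀ C₀ η hc hC hη
  refine ⟨max Z₁ (max Z₂ Z₃), ?_⟩
  intro Z hZ q D₀ Γ P hq hSm hD8 hDq hΓ hfam s₀ w₀ hw
  have hZ1 : Z₁ ≤ Z := (le_max_left _ _).trans hZ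
  have hZ2 : Z₂ ≤ Z := (le_max_left _ _).trans ((le_max_right _ _).trans hZ)
  have hZ3 : Z₃ ≤ Z := (le_max_right _ _).trans ((le_max_right _ _).trans hZ)
  have hqn : 1 ≤ q := hq.pos
  have hq0 : (0 : ℝ) < q := by exact_mod_cast hqn
  obtain ⟨T₁, hPPB⟩ := hPPB Z hZ1 q δ η hq hSm hδ hδ1 hη
  have hDGN := hDGN Z hZ2 q hq hSm
  obtain ⟨T₂, hSCL⟩ := hSCL Z hZ3 q D₀ Γ P hq hSm hD8 hDq hΓ hfam (64 * q / (δ ^ 2 * η) + 1)
    (η * δ / (16 * q)) (by positivity)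
  have hev : ∀ᶠ T : ℝ in Filter.atTop, 1 ≤ T ∧ T ^ (-(9999 / 10000) : ℝ) ≤ η * δ ^ 2 / (96 * q) ∧
      12 * q / (η * δ) ≤ T ∧ T ^ (-(8 / 1000000) : ℝ) ≤ η * δ ^ 5 / (64 * (4096 * q ^ 3)) ∧
      T ^ (-(1 / 7500) : ℝ) ≤ η * δ ^ 5 / (4096 * q ^ 3) :=
    (Filter.eventually_ge_atTop 1).and ((SEM_ev _ _ (by positivity) (by norm_num)).and
      ((Filter.eventually_ge_atTop _).and ((SEM_ev _ _ (by positivity) (by norm_num)).and
        (SEM_ev _ _ (by positivity) (by norm_num)))))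
  obtain ⟨T₃, hT₃⟩ := Filter.eventually_atTop.1 hev
  refine ⟨max T₁ (max T₂ T₃), fun T hT => ?_⟩
  have hT1 : T₁ ≤ T := (le_max_left _ _).trans hT
  have hT2 : T₂ ≤ T := (le_max_left _ _).trans ((le_max_right _ _).trans hT)
  have hT3 : T₃ ≤ T := (le_max_right _ _).trans ((le_max_right _ _).trans hT)
  obtain ⟨t1, t2, t3, t4, t5⟩ := hT₃ T hT3
  obtain ⟨S, G, hS, hA, hD1, hcard, hG1, hG2, hDD, hQF⟩ := hSCL T hT2
  refine ⟨S, fun D hD => ⟨(hS D hD).1, (hS D hD).2.2.1, (hS D hD).2.2.2.2.2.1⟩, ?_⟩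
  have hT0 : 0 < T := by linarith
  set B : ℝ := ∑ D ∈ S, cD D with hBdef
  have hB1 : 1 ≤ B := by
    have : 0 ≤ 64 * q / (δ ^ 2 * η) := by positivity
    linarith
  have hB2 : 64 * q / (δ ^ 2 * η) ≤ B := by linarith
  have hB0 : 0 < B := by linarith
  set C : ℝ := δ ^ 5 * T ^ 2 / (4096 * q ^ 3) with hCdef
  have hC0 : 0 < C := by positivity
  set J : ℕ := ⌊T ^ (1 / 16 : ℝ)⌋₊ with hJdef
  have hJ : 1 ≤ J := by
    apply Nat.le_floor
    rw [Nat.cast_one]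
    exact Real.one_le_rpow t1 (by norm_num)
  -- the quadratic form
  have hX : ∑ D ∈ S, ∑ D' ∈ S, SEM_X q J G η D D' ≤ (1 + η) ^ 2 * B ^ 2 := by
    rw [SEM_sum]
    have h1 := SEM_one S q J G hG1
    have h2 := hQF J hJ
    have h3 := mul_le_mul_of_nonneg_left h1 hη.le
    have h4 := mul_le_mul_of_nonneg_left h2 (show 0 ≤ 1 + η by linarith)
    calc _ ≤ QF q J G S + η * QF q J G S := by linarith
      _ = (1 + η) * QF q J G S := by ring
      _ ≤ (1 + η) * ((1 + η) * B ^ 2) := h4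
      _ = _ := by ring
  set Yo : ℝ := T ^ (2 - 1 / 3000 : ℝ) with hYo
  have hYo0 : 0 ≤ Yo := by positivity
  set Zd : ℝ := 16 * T ^ 2 * (4 * T ^ 2) ^ (1 / 1000000 : ℝ) with hZd
  have hZd0 : 0 ≤ Zd := by positivity
  -- single pairs
  have hpair : ∀ D ∈ S, ∀ D' ∈ S, ((QQ q s₀ w₀ T δ D D').card : ℝ) ≤
      (C * SEM_X q J G η D D' + Yo) + (if D = D' then
        ((sW q s₀ T δ D).card : ℝ) * (wW q w₀ T δ).card + Zd * (1 / (D : ℝ)) else 0) := by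
    intro D hD D' hD'
    obtain ⟨p1, p2, p3, p4, p5, p6, p7⟩ := hS D hD
    obtain ⟨r1, r2, r3, r4, r5, r6, r7⟩ := hS D' hD'
    have h1 : ((QQ q s₀ w₀ T δ D D').card : ℝ) ≤ ((PP q s₀ w₀ T δ D D').card : ℝ) := by
      exact_mod_cast hTRI q s₀ w₀ D D' T δ hq hw (p3.trans r3.symm) p6 r6 t1 hδ hδ1
    refine h1.trans ?_
    by_cases hDe : D = D'
    · subst hDe
      rw [if_pos rfl]
      have h2 := hDGN s₀ w₀ D T δ hw p6 (p7.trans (by
        have h3 : T ^ (1 / 5000 : ℝ) ≤ T ^ (2 : ℝ) :=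
          Real.rpow_le_rpow_of_exponent_le t1 (by norm_num)
        rwa [Real.rpow_two] at h3)) t1 hδ hδ1
      have h3 : 0 ≤ C * SEM_X q J G η D D := mul_nonneg hC0.le (SEM_X_nonneg _ _ _ _ _ hη.le)
      have e : 16 * T ^ 2 / (D : ℝ) * (4 * T ^ 2) ^ (1 / 1000000 : ℝ) = Zd * (1 / (D : ℝ)) := by
        rw [hZd]; ring
      rw [e] at h2
      linarith
    · rw [if_neg hDe, add_zero]
      have h2 := hPPB T hT1 s₀ w₀ D D' G hw p2 r2 hDe p4 r4 p5 r5 p7 r7 hG1 hG2 (by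
        have h3 := hDD D hD D' hD'
        rw [div_mul_eq_mul_div, le_div_iff₀ (by positivity)] at h3
        linarith)
      exact h2
  -- the second moment
  set W : ℝ := ((wW q w₀ T δ).card : ℝ) with hW
  set SS : ℝ := ∑ D ∈ S, ((sW q s₀ T δ D).card : ℝ) with hSS
  have hE : ∑ D ∈ S, ∑ D' ∈ S, ((QQ q s₀ w₀ T δ D D').card : ℝ) ≤
      C * ((1 + η) ^ 2 * B ^ 2) + (S.card : ℝ) ^ 2 * Yo + (SS * W +
        Zd * T ^ (-(1 / 100000) : ℝ)) := by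
    have h1 : ∑ D ∈ S, ∑ D' ∈ S, ((QQ q s₀ w₀ T δ D D').card : ℝ) ≤
        ∑ D ∈ S, ∑ D' ∈ S, ((C * SEM_X q J G η D D' + Yo) + (if D = D' then
        ((sW q s₀ T δ D).card : ℝ) * W + Zd * (1 / (D : ℝ)) else 0)) :=
      Finset.sum_le_sum fun D hD => Finset.sum_le_sum fun D' hD' => hpair D hD D' hD'
    refine h1.trans ?_
    have h2 : ∑ D ∈ S, ∑ D' ∈ S, ((C * SEM_X q J G η D D' + Yo) + (if D = D' then
        ((sW q s₀ T δ D).card : ℝ) * W + Zd * (1 / (D : ℝ)) else 0)) =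
        C * ∑ D ∈ S, ∑ D' ∈ S, SEM_X q J G η D D' + (S.card : ℝ) ^ 2 * Yo +
          (SS * W + Zd * ∑ D ∈ S, 1 / (D : ℝ)) := by
      have h3 : ∀ D ∈ S, ∑ D' ∈ S, ((C * SEM_X q J G η D D' + Yo) + (if D = D' then
          ((sW q s₀ T δ D).card : ℝ) * W + Zd * (1 / (D : ℝ)) else 0)) =
          (C * ∑ D' ∈ S, SEM_X q J G η D D' + (S.card : ℝ) * Yo) +
            (((sW q s₀ T δ D).card : ℝ) * W + Zd * (1 / (D : ℝ))) := by
        intro D hD
        rw [Finset.sum_add_distrib, Finset.sum_add_distrib, ← Finset.mul_sum, Finset.sum_const,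
          nsmul_eq_mul, Finset.sum_ite_eq, if_pos hD]
      have h6 : ∑ D ∈ S, C * ∑ D' ∈ S, SEM_X q J G η D D' =
          C * ∑ D ∈ S, ∑ D' ∈ S, SEM_X q J G η D D' := (Finset.mul_sum _ _ _).symm
      have h7 : ∑ D ∈ S, ((sW q s₀ T δ D).card : ℝ) * W = SS * W := (Finset.sum_mul _ _ _).symm
      have h8 : ∑ D ∈ S, Zd * (1 / (D : ℝ)) = Zd * ∑ D ∈ S, 1 / (D : ℝ) :=
        (Finset.mul_sum _ _ _).symm
      rw [Finset.sum_congr rfl h3, Finset.sum_add_distrib, Finset.sum_add_distrib,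
        Finset.sum_add_distrib, h6, h7, h8, Finset.sum_const, nsmul_eq_mul]
      ring
    rw [h2]
    have h4 := mul_le_mul_of_nonneg_left hX hC0.le
    have h5 := mul_le_mul_of_nonneg_left hD1 hZd0
    linarith
  -- the first moment
  have hWb : |W - δ * T / (4 * q)| ≤ 1 := (hFST q s₀ w₀ 1 T δ hqn le_rfl hT0.le hδ hδ1).2
  have hSb : |SS - δ ^ 2 * T / (32 * q) * B| ≤ (S.card : ℝ) := by
    have h1 : SS - δ ^ 2 * T / (32 * q) * B =
        ∑ D ∈ S, (((sW q s₀ T δ D).card : ℝ) - δ ^ 2 * T / (32 * q * √(D : ℝ))) := by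
      rw [Finset.sum_sub_distrib, hSS, hBdef, Finset.mul_sum]
      congr 1
      refine Finset.sum_congr rfl fun D _ => ?_
      unfold cD
      rw [div_mul_div_comm, mul_one]
    rw [h1]
    refine (Finset.abs_sum_le_sum_abs _ _).trans ?_
    calc _ ≤ ∑ D ∈ S, (1 : ℝ) := Finset.sum_le_sum fun D hD =>
          (hFST q s₀ w₀ D T δ hqn (hS D hD).2.2.2.2.2.1 hT0.le hδ hδ1).1
      _ = _ := by simp
  have hcard2 : (S.card : ℝ) ≤ η / 3 * (δ ^ 2 * T / (32 * q)) := by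
    have h1 : T ^ (1 / 10000 : ℝ) = T * T ^ (-(9999 / 10000) : ℝ) := by
      have h2 := Real.rpow_add hT0 1 (-(9999 / 10000))
      rw [Real.rpow_one] at h2
      rw [← h2]
      norm_num
    refine hcard.trans ?_
    rw [h1]
    calc T * T ^ (-(9999 / 10000) : ℝ) ≤ T * (η * δ ^ 2 / (96 * q)) :=
          mul_le_mul_of_nonneg_left t2 hT0.le
      _ = _ := by ring
  set A1 : ℝ := δ ^ 2 * T / (32 * q) * B with hA1
  set W0 : ℝ := δ * T / (4 * q) with hW0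
  have hA1p : 0 < A1 := by positivity
  have hW0p : 0 < W0 := by positivity
  have hs1 : (S.card : ℝ) ≤ η / 3 * A1 := by
    refine hcard2.trans ?_
    have h1 : δ ^ 2 * T / (32 * q) ≤ A1 := le_mul_of_one_le_right (by positivity) hB1
    exact mul_le_mul_of_nonneg_left h1 (by positivity)
  have hw1 : 1 ≤ η / 3 * W0 := by
    rw [div_le_iff₀ (by positivity)] at t3
    rw [hW0, mul_div_assoc', le_div_iff₀ (by positivity)]
    linarith
  rw [abs_le] at hWb hSb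
  have hSlo : (1 - η / 3) * A1 ≤ SS := by linarith [hSb.1]
  have hShi : SS ≤ (1 + η / 3) * A1 := by linarith [hSb.2]
  have hWlo : (1 - η / 3) * W0 ≤ W := by linarith [hWb.1]
  have hWhi : W ≤ (1 + η / 3) * W0 := by linarith [hWb.2]
  have hAW : 0 < A1 * W0 := by positivity
  have hFlo : (1 - η) * (A1 * W0) ≤ SS * W := by
    have h1 : ((1 - η / 3) * A1) * ((1 - η / 3) * W0) ≤ SS * W := by
      refine mul_le_mul hSlo hWlo ?_ ?_
      · exact mul_nonneg (by linarith) hW0p.le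
      · exact le_trans (mul_nonneg (by linarith) hA1p.le) hSlo
    have h2 : (1 - η) * (A1 * W0) ≤ (1 - η / 3) ^ 2 * (A1 * W0) :=
      mul_le_mul_of_nonneg_right (by nlinarith) hAW.le
    linarith
  have hFhi : SS * W ≤ (1 + η) * (A1 * W0) := by
    have h1 : SS * W ≤ ((1 + η / 3) * A1) * ((1 + η / 3) * W0) := by
      refine mul_le_mul hShi hWhi ?_ ?_
      · exact le_trans (mul_nonneg (by linarith) hW0p.le) hWlo
      · positivity
    have h2 : (1 + η / 3) ^ 2 * (A1 * W0) ≤ (1 + η) * (A1 * W0) :=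
      mul_le_mul_of_nonneg_right (by nlinarith) hAW.le
    linarith
  -- comparison of `A1 W0` with `C B²`
  have hVAW : (δ * T ^ 2 / (4 * q)) * (C * B ^ 2) = (A1 * W0) ^ 2 := by
    rw [hCdef, hA1, hW0]
    field_simp
    ring
  have hF1 : SS * W ≤ η * (C * B ^ 2) := by
    refine hFhi.trans ?_
    have h1 : (1 + η) * (A1 * W0) ≤ 2 * (A1 * W0) := mul_le_mul_of_nonneg_right (by linarith) hAW.le
    refine h1.trans ?_
    have e1 : 2 * (A1 * W0) = (64 * q / (δ ^ 2 * η)) * (η * C * B) := by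
      rw [hCdef, hA1, hW0]
      field_simp
      ring
    rw [e1]
    calc (64 * q / (δ ^ 2 * η)) * (η * C * B) ≤ B * (η * C * B) :=
          mul_le_mul_of_nonneg_right hB2 (by positivity)
      _ = _ := by ring
  have hCB : C ≤ C * B ^ 2 := le_mul_of_one_le_right hC0.le (by nlinarith)
  have hEd : Zd * T ^ (-(1 / 100000) : ℝ) ≤ η * (C * B ^ 2) := by
    have h1 : (4 * T ^ 2) ^ (1 / 1000000 : ℝ) ≤ 4 * T ^ (2 / 1000000 : ℝ) := by
      rw [Real.mul_rpow (by norm_num) (by positivity)]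
      have h2 : (4 : ℝ) ^ (1 / 1000000 : ℝ) ≤ 4 := by
        calc (4 : ℝ) ^ (1 / 1000000 : ℝ) ≤ 4 ^ (1 : ℝ) :=
              Real.rpow_le_rpow_of_exponent_le (by norm_num) (by norm_num)
          _ = 4 := Real.rpow_one 4
      have h3 : (T ^ 2) ^ (1 / 1000000 : ℝ) = T ^ (2 / 1000000 : ℝ) := by
        rw [← Real.rpow_natCast, ← Real.rpow_mul hT0.le]
        norm_num
      rw [h3]
      exact mul_le_mul_of_nonneg_right h2 (by positivity)
    have h4 : T ^ (2 / 1000000 : ℝ) * T ^ (-(1 / 100000) : ℝ) = T ^ (-(8 / 1000000) : ℝ) := by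
      rw [← Real.rpow_add hT0]
      norm_num
    have h5 : Zd * T ^ (-(1 / 100000) : ℝ) ≤ 64 * T ^ 2 * T ^ (-(8 / 1000000) : ℝ) := by
      rw [← h4, hZd]
      have h6 := mul_le_mul_of_nonneg_left h1 (show 0 ≤ 16 * T ^ 2 by positivity)
      have h7 := mul_le_mul_of_nonneg_right h6 (show 0 ≤ T ^ (-(1 / 100000) : ℝ) by positivity)
      calc _ ≤ _ := h7
        _ = _ := by ring
    have h8 := mul_le_mul_of_nonneg_left t4 (show 0 ≤ 64 * T ^ 2 by positivity)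
    have e : 64 * T ^ 2 * (η * δ ^ 5 / (64 * (4096 * q ^ 3))) = η * C := by
      rw [hCdef]
      field_simp
    rw [e] at h8
    have h9 := mul_le_mul_of_nonneg_left hCB hη.le
    linarith
  have hEo : (S.card : ℝ) ^ 2 * Yo ≤ η * (C * B ^ 2) := by
    have h1 : (S.card : ℝ) ^ 2 ≤ (T ^ (1 / 10000 : ℝ)) ^ 2 :=
      pow_le_pow_left₀ (Nat.cast_nonneg _) hcard 2
    have h2 : (T ^ (1 / 10000 : ℝ)) ^ 2 * Yo = T ^ 2 * T ^ (-(1 / 7500) : ℝ) := by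
      rw [hYo, ← Real.rpow_natCast, ← Real.rpow_mul hT0.le, ← Real.rpow_add hT0,
        ← Real.rpow_natCast T 2, ← Real.rpow_add hT0]
      norm_num
    have h3 := mul_le_mul_of_nonneg_right h1 hYo0
    have h4 := mul_le_mul_of_nonneg_left t5 (show 0 ≤ T ^ 2 by positivity)
    have e : T ^ 2 * (η * δ ^ 5 / (4096 * q ^ 3)) = η * C := by
      rw [hCdef]
      field_simp
    rw [e] at h4
    have h9 := mul_le_mul_of_nonneg_left hCB hη.le
    linarith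
  have hcsw := hCSW S q s₀ w₀ T δ
  rw [← Finset.sum_mul] at hcsw
  refine SEM_fin ((Im S q s₀ w₀ T δ).card : ℝ) (SS * W) _ B C (δ * T ^ 2 / (4 * q)) η hη hη1 hC0
    hB0 (by positivity) (Nat.cast_nonneg _) hcsw ?_ ?_
  · rw [hVAW]
    have h1 : 0 ≤ (1 - η) * (A1 * W0) := mul_nonneg (by linarith) hAW.le
    calc (1 - η) ^ 2 * (A1 * W0) ^ 2 = ((1 - η) * (A1 * W0)) ^ 2 := by ring
      _ ≤ _ := pow_le_pow_left₀ h1 hFlo 2
  · calc _ ≤ _ := hE
      _ ≤ _ := by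
        have e : C * ((1 + η) ^ 2 * B ^ 2) = (1 + η) ^ 2 * (C * B ^ 2) := by ring
        rw [e]
        nlinarith

end Pool.Agent.SU
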